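import Pool.Agent.Q60.MT.Transfer
import Pool.Agent.Q60.ED.ThmB2
import Pool.Agent.Q60.TD.KL

/-!
# The invariants of bounded degree over an arbitrary field of characteristic zero
-/

set_option linter.unusedSectionVars false

namespace Pool.Agent.Q60.MT

open MvPolynomial Module Matrix Pool.Agent.Q60.ED Pool.Agent.Q60.TD

variable {ι : Type} [Fintype ι] [DecidableEq ι]

lemma aeval_ft {F L : Type} [Field F] [Field L] [Algebra F L] (h : Matrix ι ι L) {n : ℕ}
    (t : (Fin n → ι) → F) (I : Fin n → ι) :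
    aeval (fun p : ι × ι => h p.1 p.2) (ft t I) = tpow h n (bc L t) I - bc L t I := by
  rw [ft, map_sub, xt, map_sum, tpow_apply]
  congr 1
  · refine Finset.sum_congr rfl fun J _ => ?_
    rw [map_mul, mon, map_prod, mul_comm]
    congr 1
    · exact Finset.prod_congr rfl fun k _ => aeval_X _ _
    · exact aeval_C _ _
  · exact aeval_C _ _

/-- The matrices which fix the invariant tensors of bounded degree fix all invariant tensors. -/
theorem fix_all_L (V : PHS ι) {D : ℕ} (hD : (2 * V.d + 1) ^ (Fintype.card ι ^ 2) *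
    (Fintype.card ι ^ 2 + 1) ^ (Fintype.card ι ^ 2 + 1) ≤ D) {L : Type} [Field L] [Algebra ℚ L]
    {h : Matrix ι ι L} (hh : ∀ m ≤ 2 * D, ∀ t ∈ V.T m, tpow h m (bc L t) = bc L t) {n : ℕ}
    {t : (Fin n → ι) → ℚ} (ht : t ∈ V.T n) : tpow h n (bc L t) = bc L t := by
  funext I
  rw [← sub_eq_zero, ← aeval_ft]
  refine transfer (Ω := ℂ) {p | ∃ m ≤ 2 * D, ∃ s ∈ V.T m, ∃ J : Fin m → ι, p = ft s J} (ft t I) ?_
    (fun p : ι × ι => h p.1 p.2) ?_
  · intro x hx
    let g : Matrix ι ι ℂ := Matrix.of fun i j => x (i, j)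
    have hg : (fun p : ι × ι => g p.1 p.2) = x := rfl
    have hcx : ∀ {m : ℕ} (s : (Fin m → ι) → ℚ), bc ℂ s = cx s := by
      intro m s
      funext a
      exact eq_ratCast (algebraMap ℚ ℂ) (s a)
    have h1 := V.fix_all hD (h := g) (fun m hm s hs => by
      funext J
      have h2 := hx _ ⟨m, hm, s, hs, J, rfl⟩
      rw [← hg, aeval_ft, sub_eq_zero, hcx] at h2
      exact h2) ht
    rw [← hg, aeval_ft, sub_eq_zero, hcx, h1]
  · rintro _ ⟨m, hm, s, hs, J, rfl⟩
    rw [aeval_ft, hh m hm s hs, sub_self]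

end Pool.Agent.Q60.MT
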