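import Pool.Agent.Q60.MT.Defs
import Pool.Agent.Q60.MT.FixL
import Pool.Agent.Q60.TD.GMain
import Pool.Agent.Q60.HDS.Main

/-!
# Tensors of Hodge classes and comparison isomorphisms
-/

open CategoryTheory AlgebraicGeometry TensorProduct

set_option linter.unusedSectionVars false

universe u v w

namespace Pool.Agent.Q60.MT

open Module Matrix
open Pool.Agent.H914 Pool.Agent.H914.VarClass Pool.Agent.H914.VarClass.Obj
  Pool.Agent.H914.WeilCohomology
open Pool.Agent.Y133.Half Pool.Agent.Q60.ED Pool.Agent.Q60.TD Pool.Agent.Q55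
open Pool.Agent.Q60.HD (wd wd_zero wd_succ wd_prj cls crd mem_crd_succ)

variable {k : Type u} [Field k] {𝒱 : VarClass k} {ops : CycleOps 𝒱}
  {W W' : WeilCohomology.{u, 0} ops} (C : Artin W W') {X Y Z : 𝒱.Obj}

variable {C} in
lemma Artin.gr {i : ℕ} {c : W.H X} (hc : c ∈ W.gr X i) : C.f X c ∈ W'.gr X i := (C.iso X).gr i c hc

lemma Artin.map (g : X ⟶ Y) (c : W.H Y) : C.f X (W.map g c) = W'.map g (C.f Y c) := C.nat X Y g c

lemma Artin.ext (X : 𝒱.Obj) : IsExtension W.K W'.K (C.f X) := (C.iso X).ext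

lemma nsmul_cast {K V : Type*} [Field K] [CharZero K] [AddCommGroup V] [Module K V] (q : ℚ)
    (x : V) : q.den • ((q : K) • x) = q.num • x := by
  rw [← Nat.cast_smul_eq_nsmul K, ← Int.cast_smul_eq_zsmul K, smul_smul]
  congr 1
  have h : (q.den : K) ≠ 0 := Nat.cast_ne_zero.2 q.den_nz
  rw [Rat.cast_def, mul_div_cancel₀ _ h]

/-- The comparison maps are compatible with rational scalars. -/
lemma C_smul (q : ℚ) (x : W.H X) : C.f X ((q : W.K) • x) = (q : W'.K) • C.f X x := by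
  have h1 := congrArg (C.f X) (nsmul_cast (K := W.K) q x)
  rw [map_nsmul, map_zsmul] at h1
  have h2 := nsmul_cast (K := W'.K) q (C.f X x)
  have h3 := h1.trans h2.symm
  rw [← Nat.cast_smul_eq_nsmul W'.K, ← Nat.cast_smul_eq_nsmul W'.K] at h3
  exact smul_right_injective _ (Nat.cast_ne_zero.2 q.den_nz : (q.den : W'.K) ≠ 0) h3

lemma C_wd {ι : Type} [Fintype ι] [DecidableEq ι] (e : Basis ι W.K (W.H X))
    (e' : Basis ι W'.K (W'.H X)) (he : ∀ i, e' i = C.f X (e i)) {n : ℕ} (f : Fin n → (Z ⟶ X))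
    (w : Fin n → ι) : wd e' f w = C.f Z (wd e f w) := by
  induction n with
  | zero => rw [wd_zero, wd_zero, map_one]
  | succ n ih => rw [wd_succ, wd_succ, map_mul, ih, C.map, he]

variable (hrat : ∀ r : W.K, ∃ q : ℚ, (q : W.K) = r)

include hrat in
/-- The basis given by the comparison isomorphism. -/
lemma exists_eX {ι : Type} [Fintype ι] (e : Basis ι W.K (W.H X)) :
    ∃ e' : Basis ι W'.K (W'.H X), ∀ i, e' i = C.f X (e i) := by
  have h1 := (C.ext X).1 ι e e.linearIndependent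
  have h2 : ⊤ ≤ Submodule.span W'.K (Set.range fun i => C.f X (e i)) := by
    rw [← (C.ext X).2, Submodule.span_le]
    rintro _ ⟨x, rfl⟩
    rw [← e.sum_repr x, map_sum]
    refine Submodule.sum_mem _ fun i _ => ?_
    obtain ⟨q, hq⟩ := hrat (e.repr x i)
    rw [← hq, C_smul]
    exact Submodule.smul_mem _ _ (Submodule.subset_span ⟨i, rfl⟩)
  exact ⟨Basis.mk h1 h2, fun i => Basis.mk_apply _ _ i⟩

lemma C_cls {ι : Type} [Fintype ι] [DecidableEq ι] (e : Basis ι W.K (W.H X))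
    (e' : Basis ι W'.K (W'.H X)) (he : ∀ i, e' i = C.f X (e i)) {n : ℕ} (f : Fin n → (Z ⟶ X))
    (t : (Fin n → ι) → ℚ) : clsK e' f (bc W'.K t) = C.f Z (cls e f t) := by
  rw [clsK, cls, map_sum]
  refine Finset.sum_congr rfl fun w _ => ?_
  rw [C_smul, C_wd C e e' he, bc, eq_ratCast]

end Pool.Agent.Q60.MT
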