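import Pool.Agent.Y121.AHS.Ext

/-!
# Polarised Hodge structures and comparison of two algebras: definitions
-/

namespace Pool.Agent.Q60.MT

open Pool.Agent.Y121.AHS

section Hodge

variable {K A : Type} [Field K] [Algebra K ℂ] [Ring A] [Algebra K A]

/-- The element `y` of `ℂ ⊗ A` is the complex conjugate of `x`: we have `x = ∑ l i ⊗ c i` and
`y = ∑ (conj l i) ⊗ c i` with complex numbers `l i` and elements `c i` of `A`. -/
def ExtConj (x y : Ext K ℂ A) : Prop :=
  ∃ (m : ℕ) (l : Fin m → ℂ) (c : Fin m → A), x = ∑ i, extSm K ℂ (l i) (extEm K ℂ (c i)) ∧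
    y = ∑ i, extSm K ℂ (starRingEnd ℂ (l i)) (extEm K ℂ (c i))

/-- The subspaces `P p q` of `ℂ ⊗ A` are zero unless `0 ≤ p ≤ d` and `0 ≤ q ≤ d`, and complex
conjugation exchanges `P p q` and `P q p`. -/
structure RealTypes (P : ℤ → ℤ → Submodule ℂ (Ext K ℂ A)) (d : ℕ) : Prop where
  range : ∀ p q x, x ∈ P p q → x ≠ 0 → 0 ≤ p ∧ p ≤ d ∧ 0 ≤ q ∧ q ≤ d
  conj : ∀ p q x y, ExtConj x y → x ∈ P p q → y ∈ P q p

/-- The bilinear form `(x, y) ↦ tr (φ x · y)` on `ℂ ⊗ A`. -/
noncomputable def extBil (tr : A →ₗ[K] K) (φ : A →ₗ[K] A) (x y : Ext K ℂ A) : ℂ :=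
  extForm K ℂ tr (extMul K ℂ (extMap K ℂ φ x) y)

/-- The form `(x, y) ↦ tr (φ x · y)` is a polarisation of the Hodge structure given by the subspaces
`P p q`: it is zero on `P p q × P r s` unless `(r,s) = (q,p)`, and for all nonzero `x` in `P p q`
with complex conjugate `y` its value at `(x, y)`, multiplied by `i ^ (p - q)`, is a positive real
number. -/
structure PolarisedBy (P : ℤ → ℤ → Submodule ℂ (Ext K ℂ A)) (tr : A →ₗ[K] K) (φ : A →ₗ[K] A) :
    Prop where
  orth : ∀ p q r s x y, x ∈ P p q → y ∈ P r s → (r, s) ≠ (q, p) → extBil tr φ x y = 0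
  pos : ∀ p q x y, x ∈ P p q → ExtConj x y → x ≠ 0 →
    ∃ t : ℝ, 0 < t ∧ Complex.I ^ (p - q) * extBil tr φ x y = (t : ℂ)

end Hodge

section Comparison

variable (K L : Type*) {A A' B B' : Type*} [Field K] [Field L] [Ring A] [Ring A'] [Ring B]
  [Ring B'] [Algebra K A] [Algebra K A'] [Algebra L B] [Algebra L B']

/-- The ring homomorphism `f : A → B` induces an isomorphism between `A` with scalars extended from
`K` to `L` and `B`: families which are linearly independent over `K` are mapped to families which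
are linearly independent over `L`, and the image of `f` spans `B` over `L`. -/
def IsExtension (f : A →+* B) : Prop :=
  (∀ (ι : Type) (c : ι → A), LinearIndependent K c → LinearIndependent L fun i => f (c i)) ∧
    Submodule.span L (Set.range f) = ⊤

variable {K L}

/-- The ring homomorphism `f` preserves the degrees and induces an isomorphism after extension of
the scalars. -/
structure IsGradedExtension (f : A →+* B) (gr : ℕ → Submodule K A) (gr' : ℕ → Submodule L B) :
    Prop where
  gr : ∀ i, ∀ c ∈ gr i, f c ∈ gr' i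
  ext : IsExtension K L f

/-- The ring homomorphisms `f` and `f'` commute with the homomorphisms `m` and `m'`. -/
def Commutes (f : A →+* B) (f' : A' →+* B') (m : A' →ₐ[K] A) (m' : B' →ₐ[L] B) : Prop :=
  ∀ c, f (m c) = m' (f' c)

variable (L)

/-- The element `c` of `B` is a linear combination over `L` of the images of elements of `A` with
the property `P`. -/
def InSpan (f : A →+* B) (P : A → Prop) (c : B) : Prop := c ∈ Submodule.span L (f '' {x | P x})

end Comparison

end Pool.Agent.Q60.MT
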