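import Pool.Agent.Q60.MT.Main2

/-!
# Effective finite determination for the Mumford-Tate conjecture: the final form
-/

open CategoryTheory AlgebraicGeometry TensorProduct

set_option linter.unusedSectionVars false

universe u v w

namespace Pool.Agent.Q60.MT

open Module Matrix
open Pool.Agent.H914 Pool.Agent.H914.VarClass Pool.Agent.H914.VarClass.Obj
  Pool.Agent.H914.WeilCohomology
open Pool.Agent.Y133.Half Pool.Agent.Y121 Pool.Agent.Q60.ED Pool.Agent.Q60.TD Pool.Agent.Q55

variable {k : Type u} [Field k] {𝒱 : VarClass k} {ops : CycleOps 𝒱} {T : AHS.HodgeTheory ops}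
  {W' : WeilCohomology.{u, 0} ops} {C : Artin T.W W'} {X Y Z : 𝒱.Obj} {Γ : Type w} [Group Γ]
  {G : GaloisAction W' Γ}

/-- The Hodge theory in the other form. -/
noncomputable abbrev tA (T : AHS.HodgeTheory ops) : AH.HodgeTheory ops := AHS.toH T

lemma realH (h : IsPolarisable T X) : HD.RealH (tA T) X where
  range p q x hx hx0 := h.1.range p q x hx hx0
  conj p q x y h' hx := h.1.conj p q x y h' hx

lemma exists_isPol (h : IsPolarisable T X) : ∃ φ, HD.IsPol (tA T) X φ := by
  obtain ⟨φ, h1⟩ := h.2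
  exact ⟨φ, fun p q r s x hx y hy hne => h1.orth p q r s x y hx hy hne,
    fun p q x y hx hxy hx0 => h1.pos p q x y hx hxy hx0⟩

lemma mt_iff {Y : 𝒱.Obj} : MumfordTate C G Y ↔
    TH (T := tA T) C G Y ∧ HT (T := tA T) C G Y := by
  constructor
  · intro h
    exact ⟨fun j c hc => (h j c).1 hc, fun j x hx => (h j _).2 (Submodule.subset_span ⟨x, hx, rfl⟩)⟩
  · rintro ⟨h1, h2⟩ j c
    refine ⟨h1 j c, fun hc => ?_⟩
    change c ∈ Submodule.span W'.K _ at hc
    induction hc using Submodule.span_induction with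
    | mem x hx =>
      obtain ⟨y, hy, rfl⟩ := hx
      exact h2 j y hy
    | zero => exact (tatePred G).zero
    | add x y _ _ hx hy => exact (tatePred G).add hx hy
    | smul c x _ hx => exact (tatePred G).smul c hx

/-- **Effective finite determination of the Mumford-Tate conjecture.** -/
theorem determination [TopologicalSpace Γ] [TopologicalSpace W'.K] (hA : IsArithmetic G X)
    (hX : IsPolarisable T X) {N : ℕ}
    (hN : (2 * finrank W'.K (W'.H X)) ^ (2 * finrank W'.K (W'.H X)) ^ 3 ≤ N + 1)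
    (hMT : MumfordTate C G (pw X N)) (hSS : ∀ j, SemisimpleAt G (pw X N) (2 * j)) (n : ℕ) :
    MumfordTate C G (pw X n) ∧ ∀ i, SemisimpleAt G (pw X n) i := by
  obtain ⟨φ, hφ⟩ := exists_isPol hX
  obtain ⟨h1, h2⟩ := mt_iff.1 hMT
  obtain ⟨h3, h4, h5⟩ := mt_main (T := tA T) hA (realH hX) hφ hN h1 h2 hSS n
  exact ⟨mt_iff.2 ⟨h3, h4⟩, h5⟩

/-- **Effective finite determination for Hodge classes which are Tate classes.** -/
theorem determination_incl (hX : IsPolarisable T X) {N : ℕ}
    (hN : (2 * finrank W'.K (W'.H X)) ^ (3 * finrank W'.K (W'.H X) ^ 2) ≤ N + 1)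
    (h : ∀ j c, InSpan W'.K (C.f (pw X N)) (AHS.IsHodge T (pw X N) j) c → IsTate G (pw X N) j c)
    (n j : ℕ) (c : W'.H (pw X n))
    (hc : InSpan W'.K (C.f (pw X n)) (AHS.IsHodge T (pw X n) j) c) : IsTate G (pw X n) j c := by
  obtain ⟨φ, hφ⟩ := exists_isPol hX
  have h1 : HT (T := tA T) C G (pw X N) := fun j x hx =>
    h j _ (Submodule.subset_span ⟨x, hx, rfl⟩)
  have h2 := ht_main (T := tA T) (realH hX) hφ hN h1 n
  change c ∈ Submodule.span W'.K _ at hc
  induction hc using Submodule.span_induction with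
  | mem x hx =>
    obtain ⟨y, hy, rfl⟩ := hx
    exact h2 j y hy
  | zero => exact (tatePred G).zero
  | add x y _ _ hx hy => exact (tatePred G).add hx hy
  | smul c x _ hx => exact (tatePred G).smul c hx

end Pool.Agent.Q60.MT
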