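import Pool.Agent.Q60.MT.FixL
import Pool.Agent.Q60.TD.MainK

/-!
# Hodge tensors which are virtually invariant in low degree are virtually invariant in all degrees
-/

set_option linter.unusedSectionVars false

namespace Pool.Agent.Q60.MT

open Module Matrix Pool.Agent.Q60.ED Pool.Agent.Q60.TD Pool.Agent.Q56.FD

variable {K : Type} [Field K] {ι : Type} [Fintype ι] [DecidableEq ι] {Γ : Type*} [Group Γ]

/-- One subgroup of finite index fixes all virtually invariant tensors of a given degree. -/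
lemma exists_uniform (R : MRep K ι Γ) (n : ℕ) : ∃ Δ : Subgroup Γ, Δ.FiniteIndex ∧
    ∀ t ∈ TK R n, ∀ g ∈ Δ, ∀ I, ∑ J, cE R I J g * t J = t I := by
  classical
  obtain ⟨s, hs⟩ : (TK R n).FG := IsNoetherian.noetherian _
  have h1 : ∀ t : s, ∃ Δ : Subgroup Γ, Δ.FiniteIndex ∧
      ∀ g ∈ Δ, ∀ I, ∑ J, cE R I J g * (t : (Fin n → ι) → K) J = (t : (Fin n → ι) → K) I := by
    intro t
    have h2 : (t : (Fin n → ι) → K) ∈ TK R n := by
      rw [← hs]
      exact Submodule.subset_span t.2
    exact h2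
  choose D hD h using h1
  refine ⟨⨅ t, D t, Subgroup.finiteIndex_iInf hD, ?_⟩
  intro t ht g hg I
  have ht' : t ∈ Submodule.span K (s : Set ((Fin n → ι) → K)) := by rw [hs]; exact ht
  clear ht
  induction ht' using Submodule.span_induction generalizing I with
  | mem t ht => exact h ⟨t, ht⟩ g ((Subgroup.mem_iInf.1 hg) _) I
  | zero => simp
  | add a b _ _ ha hb =>
    simp only [Pi.add_apply, mul_add, Finset.sum_add_distrib]
    rw [ha, hb]
  | smul c a _ ha =>
    rw [Pi.smul_apply, ← ha, smul_eq_mul, Finset.mul_sum]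
    exact Finset.sum_congr rfl fun J _ => by rw [Pi.smul_apply, smul_eq_mul]; ring

variable [CharZero K]

lemma bc_bc {L B : Type} [Field L] [CharZero L] [Algebra K L] (u : B → ℚ) :
    bc L (bc K u) = bc L u := by
  funext b
  simp only [bc, eq_ratCast, map_ratCast]

/-- **Hodge tensors are virtually invariant** in all degrees if they are so in low degree. -/
theorem all_TK (R : MRep K ι Γ) (V : PHS ι) {D : ℕ}
    (hD : (2 * V.d + 1) ^ (Fintype.card ι ^ 2) *
      (Fintype.card ι ^ 2 + 1) ^ (Fintype.card ι ^ 2 + 1) ≤ D)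
    (h : ∀ m ≤ 2 * D, ∀ t ∈ V.T m, bc K t ∈ TK R m) {n : ℕ} {t : (Fin n → ι) → ℚ}
    (ht : t ∈ V.T n) : bc K t ∈ TK R n := by
  classical
  let L := AlgebraicClosure K
  have hL : CharZero L := charZero_of_injective_algebraMap (algebraMap K L).injective
  have hM : R.M ≤ 2 * R.M := by omega
  choose E hE hE' using exists_uniform R
  let Δ : Subgroup Γ := ⨅ m : Fin (2 * D + 1), E m
  have hΔ : Δ.FiniteIndex := Subgroup.finiteIndex_iInf fun m => hE m
  have key : ∀ x : GG R L, x.1.1 ∈ Δ → tpow (rr R L x) n (bc L t) = bc L t := by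
    intro x hx
    refine fix_all_L V hD (fun m hm s hs => ?_) ht
    have h1 := h m hm s hs
    have h2 : bc L (bc K s) ∈ (toT (b := 0) R L hM).Ev m :=
      (bc_T (L := L) (b := 0) hM h1).1
    funext I
    have h3 := tpow_rr hM h2 x I
    rw [bc_bc] at h3
    rw [h3]
    have h4 := hE' m _ h1 x.1.1 ((Subgroup.mem_iInf.1 hx) ⟨m, by omega⟩) I
    have h5 := congrArg (algebraMap K L) h4
    rw [map_sum] at h5
    have h6 : ∀ I, algebraMap K L (bc K s I) = bc L s I := fun I => congrFun (bc_bc s) I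
    rw [← h6 I, ← h5]
    refine Finset.sum_congr rfl fun J _ => ?_
    rw [map_mul, h6]
  have hev : ∀ I : Fin n → ι, ¬ Even (∑ k, R.a (I k)) → t I = 0 := by
    intro I hI
    have h1 := congrFun (key (zz R L) Δ.one_mem) I
    rw [rr_zz, tpow_diag] at h1
    simp only [sg] at h1
    rw [Finset.prod_pow_eq_pow_sum, (Nat.not_even_iff_odd.1 hI).neg_one_pow, neg_one_mul,
      neg_eq_iff_add_eq_zero, ← two_mul] at h1
    have h2 : bc L t I = 0 := (mul_eq_zero.1 h1).resolve_left two_ne_zero
    exact (map_eq_zero (algebraMap ℚ L)).1 h2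
  have hte : bc L (bc K t) ∈ (toT (b := 0) R L hM).Ev n := by
    change tpow (diagonal (sg R L)) n (bc L (bc K t)) = bc L (bc K t)
    rw [bc_bc, tpow_diag]
    funext I
    simp only [sg]
    rw [Finset.prod_pow_eq_pow_sum]
    by_cases hI : Even (∑ k, R.a (I k))
    · rw [hI.neg_one_pow, one_mul]
    · have h1 : bc L t I = 0 := by
        rw [bc, hev I hI, map_zero]
      rw [h1, mul_zero]
  refine ⟨Δ, hΔ, fun g hg I => ?_⟩
  obtain ⟨x, hx⟩ := exists_GG (R := R) (L := L) g
  apply (algebraMap K L).injective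
  have h1 := tpow_rr hM hte x I
  rw [bc_bc, key x (by rw [hx]; exact hg)] at h1
  have h6 : ∀ I, algebraMap K L (bc K t I) = bc L t I := fun I => congrFun (bc_bc t) I
  rw [h6, h1, map_sum, hx]
  refine Finset.sum_congr rfl fun J _ => ?_
  rw [map_mul, h6]

end Pool.Agent.Q60.MT
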