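import Pool.Agent.Y121.AHS.Defs
import Pool.Agent.Q60.MT.DefsA
import Pool.Agent.Q60.TD.Defs2

/-!
# Comparison of Betti cohomology and l-adic cohomology, and the Mumford-Tate conjecture: definitions
-/

open CategoryTheory AlgebraicGeometry

universe u w

namespace Pool.Agent.Q60.MT

open Pool.Agent.H914 Pool.Agent.H914.VarClass Pool.Agent.H914.VarClass.Obj
  Pool.Agent.H914.WeilCohomology
open Pool.Agent.Y121.AHS Pool.Agent.Q55

variable {k : Type u} [Field k] {𝒱 : VarClass k} {ops : CycleOps 𝒱}

/-- The cohomology of `X` is a polarisable Hodge structure: complex conjugation exchanges the types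
`(p, q)` and `(q, p)`, which are in the usual range, and there is a polarisation. (By Poincare
duality, every bilinear form on the rational cohomology is of the form `(x, y) ↦ tr (φ x · y)` with
a linear map `φ`.) -/
def IsPolarisable (T : HodgeTheory ops) (X : 𝒱.Obj) : Prop :=
  RealTypes (K := T.W.K) (A := T.W.H X) (T.pq X) X.dim ∧
    ∃ φ : T.W.H X →ₗ[T.W.K] T.W.H X, PolarisedBy (K := T.W.K) (A := T.W.H X) (T.pq X) (T.W.tr X) φ

/-- A comparison isomorphism: ring homomorphisms `H(X) → H'(X)` which preserve the degrees, commute
with pull-backs and become isomorphisms if the scalars of `H(X)` are extended (for Betti cohomology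
with rational coefficients and `l`-adic cohomology: the comparison isomorphism of Artin). -/
structure Artin (W W' : WeilCohomology.{u, 0} ops) where
  /-- the homomorphisms -/
  f : ∀ X : 𝒱.Obj, W.H X →+* W'.H X
  iso : ∀ X, IsGradedExtension (f X) (W.gr X) (W'.gr X)
  nat : ∀ (X Y : 𝒱.Obj) (g : X ⟶ Y), Commutes (f X) (f Y) (W.map g) (W'.map g)

variable {T : HodgeTheory ops} {W' : WeilCohomology.{u, 0} ops} {Γ : Type w} [Group Γ]

/-- The `l`-adic Mumford-Tate conjecture for `X`: the Tate classes are the linear combinations of
the images of the Hodge classes. -/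
def MumfordTate (C : Artin T.W W') (G : GaloisAction W' Γ) (X : 𝒱.Obj) : Prop :=
  ∀ j c, IsTate G X j c ↔ InSpan W'.K (C.f X) (IsHodge T X j) c

end Pool.Agent.Q60.MT
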