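import Pool.Agent.Q60.MT.Cmp
import Pool.Agent.Q60.MT.AllTK

/-!
# Effective finite determination for the Mumford-Tate conjecture
-/

open CategoryTheory AlgebraicGeometry TensorProduct

set_option linter.unusedSectionVars false

universe u v w

namespace Pool.Agent.Q60.MT

open Module Matrix
open Pool.Agent.H914 Pool.Agent.H914.VarClass Pool.Agent.H914.VarClass.Obj
  Pool.Agent.H914.WeilCohomology
open Pool.Agent.Y133.Half Pool.Agent.Y121.AH Pool.Agent.Q60.ED Pool.Agent.Q60.TD Pool.Agent.Q55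
open Pool.Agent.Q60.HD (wd wd_zero wd_succ wd_prj cls crd mem_crd_succ RealH IsPol phs T_eq_crd
  crd_mul crd_perm crd_contr mem_crd_zero rt_spec exists_tensor Qm)

variable {k : Type u} [Field k] {𝒱 : VarClass k} {ops : CycleOps 𝒱} {T : HodgeTheory ops}
  {W' : WeilCohomology.{u, 0} ops} (C : Artin T.W W') {X Y Z : 𝒱.Obj} {Γ : Type w} [Group Γ]
  (G : GaloisAction W' Γ)

/-- The space spanned by the images of the Hodge classes of degree `2 j` on `X`. -/
def hSpan (X : 𝒱.Obj) (j : ℕ) : Submodule W'.K (W'.H X) :=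
  Submodule.span W'.K (C.f X '' {x | IsHodge T X j x})

/-- Tate classes are combinations of Hodge classes. -/
def TH (X : 𝒱.Obj) : Prop := ∀ j c, IsTate G X j c → c ∈ hSpan C X j

/-- Hodge classes are Tate classes. -/
def HT (X : 𝒱.Obj) : Prop := ∀ j x, IsHodge T X j x → IsTate G X j (C.f X x)

variable {C G}

lemma th_retract {s : Y ⟶ Z} {p : Z ⟶ Y} (h : s ≫ p = 𝟙 Y) (hZ : TH C G Z) : TH C G Y := by
  intro j c hc
  have h1 := hZ j _ ((tatePred G).map p hc)
  have h3 : W'.map s (W'.map p c) = c := by rw [← W'.map_comp, h, W'.map_id]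
  rw [← h3]
  have h4 : hSpan C Z j ≤ (hSpan C Y j).comap (W'.map s).toLinearMap := by
    rw [hSpan, Submodule.span_le]
    rintro _ ⟨x, hx, rfl⟩
    change W'.map s (C.f Z x) ∈ hSpan C Y j
    rw [← C.map]
    exact Submodule.subset_span ⟨_, (hodgePred T).map s hx, rfl⟩
  exact h4 h1

lemma ht_retract {s : Y ⟶ Z} {p : Z ⟶ Y} (h : s ≫ p = 𝟙 Y) (hZ : HT C G Z) : HT C G Y := by
  intro j x hx
  have h1 := hZ j _ ((hodgePred T).map p hx)
  have h2 := (tatePred G).map s h1
  change IsTate G Y j (W'.map s (C.f Z (T.W.map p x))) at h2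
  rwa [C.map, ← W'.map_comp, h, W'.map_id] at h2

variable {ι : Type} [Fintype ι] [DecidableEq ι] (e : Basis ι T.W.K (T.W.H X))
  (e' : Basis ι W'.K (W'.H X)) (hee : ∀ i, e' i = C.f X (e i)) {a : ι → ℕ}
  (he : ∀ j, e j ∈ T.W.gr X (a j)) (hR : RealH T X) {φ : Module.End T.W.K (T.W.H X)}
  (hφ : IsPol T X φ)

include hee he in
lemma he_gr : ∀ j, e' j ∈ W'.gr X (a j) := fun j => by
  rw [hee]
  exact Artin.gr (he j)

include hee in
/-- Hodge tensors are virtually invariant if Hodge classes are Tate classes. -/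
lemma bc_mem_TK (he' : ∀ j, e' j ∈ W'.gr X (a j)) {n : ℕ} (h : HT C G (pw X n))
    {t : (Fin (n + 1) → ι) → ℚ} (ht : t ∈ (phs e hR hφ).T (n + 1)) :
    bc W'.K t ∈ TK (toM G e' he') (n + 1) := by
  rw [TK_eq, mem_crdK_succ, C_cls C e e' hee]
  rw [T_eq_crd, mem_crd_succ] at ht
  refine ClassPred.sp_ind (Q := hodgePred T)
    (q := fun c => C.f (pw X n) c ∈ (tatePred G).sys.C (pw X n)) ?_ ?_ ?_ ht
  · intro j x hx
    exact ClassPred.sp_of (Q := tatePred G) (h j x hx)
  · rw [map_zero]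
    exact Submodule.zero_mem _
  · intro x y hx hy
    rw [map_add]
    exact Submodule.add_mem _ hx hy

/-- The tensor of the image of a Hodge class. -/
lemma exists_bc {n j : ℕ} {x : T.W.H (pw X n)} (hx : IsHodge T (pw X n) j x) :
    ∃ t ∈ (phs e hR hφ).T (n + 1), cls e (prj X n) t = x := by
  obtain ⟨t, ht⟩ := exists_tensor e x
  refine ⟨t, ?_, ht⟩
  rw [T_eq_crd, mem_crd_succ, ht]
  exact ClassPred.sp_of (Q := hodgePred T) hx

include hee in
/-- Virtually invariant tensors are combinations of Hodge tensors if Tate classes are combinations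
of Hodge classes. -/
lemma TK_le (he' : ∀ j, e' j ∈ W'.gr X (a j)) {n : ℕ} (h : TH C G (pw X n)) :
    TK (toM G e' he') (n + 1) ≤ bcS W'.K ((phs e hR hφ).T (n + 1)) := by
  intro t ht
  rw [TK_eq, mem_crdK_succ] at ht
  have h1 : (tatePred G).sys.C (pw X n) ≤
      (bcS W'.K ((phs e hR hφ).T (n + 1))).comap (wb e' n).equivFun.toLinearMap := by
    refine Submodule.span_le.2 ?_
    rintro c ⟨j, hj⟩
    have h2 : hSpan C (pw X n) j ≤
        (bcS W'.K ((phs e hR hφ).T (n + 1))).comap (wb e' n).equivFun.toLinearMap := by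
      rw [hSpan, Submodule.span_le]
      rintro _ ⟨x, hx, rfl⟩
      obtain ⟨s, hs, hsx⟩ := exists_bc e hR hφ hx
      change tn e' n (C.f (pw X n) x) ∈ bcS W'.K ((phs e hR hφ).T (n + 1))
      rw [← hsx, ← C_cls C e e' hee, tn_cls]
      exact bc_mem hs
    exact h2 (h j c hj)
  have h2 := h1 ht
  change tn e' n (clsK e' (prj X n) t) ∈ bcS W'.K ((phs e hR hφ).T (n + 1)) at h2
  rwa [tn_cls] at h2

lemma proj_C (j : ℕ) (x : T.W.H Y) : H914.proj (W'.isInternal Y) j (C.f Y x) =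
    C.f Y (H914.proj (T.W.isInternal Y) j x) := by
  refine gr_induction (T.W.isInternal Y) (p := fun x => H914.proj (W'.isInternal Y) j (C.f Y x) =
    C.f Y (H914.proj (T.W.isInternal Y) j x)) ?_ ?_ x
  · intro i x hx
    by_cases h : i = j
    · subst h
      rw [proj_same _ hx, proj_same _ (Artin.gr (C := C) hx)]
    · rw [proj_ne _ hx h, proj_ne _ (Artin.gr (C := C) hx) h, map_zero]
  · intro x y hx hy
    rw [map_add, map_add, hx, hy, map_add, map_add]

include hee in
/-- The converse statements. -/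
lemma th_of_TK (he' : ∀ j, e' j ∈ W'.gr X (a j)) {n : ℕ}
    (h : TK (toM G e' he') (n + 1) ≤ bcS W'.K ((phs e hR hφ).T (n + 1))) : TH C G (pw X n) := by
  intro j c hc
  have h1 := h (tn_mem_TK G he' hc)
  have h2 : bcS W'.K ((phs e hR hφ).T (n + 1)) ≤ (hSpan C (pw X n) j).comap
      (H914.proj (W'.isInternal (pw X n)) (2 * j) ∘ₗ clsL e' (prj X n)) := by
    rw [bcS, Submodule.span_le]
    rintro _ ⟨s, hs, rfl⟩
    change H914.proj (W'.isInternal (pw X n)) (2 * j) (clsK e' (prj X n) (bc W'.K s)) ∈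
      hSpan C (pw X n) j
    rw [C_cls C e e' hee, proj_C]
    have hs' : s ∈ (phs e hR hφ).T (n + 1) := hs
    rw [T_eq_crd, mem_crd_succ] at hs'
    exact Submodule.subset_span ⟨_, ClassPred.sp_proj (Q := hodgePred T) hs' j, rfl⟩
  have h3 := h2 h1
  change H914.proj (W'.isInternal (pw X n)) (2 * j) (clsK e' (prj X n) (tn e' n c)) ∈
    hSpan C (pw X n) j at h3
  rwa [clsK_tn, proj_same _ hc.1] at h3

include hee in
lemma ht_of_TK (he' : ∀ j, e' j ∈ W'.gr X (a j)) {n : ℕ}
    (h : ∀ t ∈ (phs e hR hφ).T (n + 1), bc W'.K t ∈ TK (toM G e' he') (n + 1)) :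
    HT C G (pw X n) := by
  intro j x hx
  obtain ⟨s, hs, hsx⟩ := exists_bc e hR hφ hx
  have h1 := h s hs
  rw [TK_eq, mem_crdK_succ, C_cls C e e' hee, hsx] at h1
  have h2 := ClassPred.sp_proj (Q := tatePred G) h1 j
  rwa [proj_same _ (Artin.gr (C := C) hx.1)] at h2

end Pool.Agent.Q60.MT
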