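import Pool.Agent.Q60.MT.Main

/-!
# Effective finite determination for the Mumford-Tate conjecture: the main theorem
-/

open CategoryTheory AlgebraicGeometry TensorProduct

set_option linter.unusedSectionVars false

universe u v w

namespace Pool.Agent.Q60.MT

open Module Matrix
open Pool.Agent.H914 Pool.Agent.H914.VarClass Pool.Agent.H914.VarClass.Obj
  Pool.Agent.H914.WeilCohomology
open Pool.Agent.Y133.Half Pool.Agent.Y121.AH Pool.Agent.Q60.ED Pool.Agent.Q60.TD Pool.Agent.Q55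
open Pool.Agent.Q60.HD (wd wd_zero wd_succ wd_prj cls crd mem_crd_succ RealH IsPol phs T_eq_crd
  crd_mul crd_perm crd_contr mem_crd_zero rt_spec exists_tensor Qm dim_lt par_mem)

variable {k : Type u} [Field k] {𝒱 : VarClass k} {ops : CycleOps 𝒱} {T : HodgeTheory ops}
  {W' : WeilCohomology.{u, 0} ops} {C : Artin T.W W'} {X Y Z : 𝒱.Obj} {Γ : Type w} [Group Γ]
  {G : GaloisAction W' Γ}

section

variable {ι : Type} [Fintype ι] [DecidableEq ι] (e : Basis ι T.W.K (T.W.H X)) {a : ι → ℕ}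
  (he : ∀ j, e j ∈ T.W.gr X (a j)) (hR : RealH T X) {φ : Module.End T.W.K (T.W.H X)}
  (hφ : IsPol T X φ)

include he in
/-- The closed system of the Hodge tensors. -/
lemma exists_tsysH : ∃ S : TSys ℚ ι, S.S = (phs e hR hφ).T := by
  have ha : ∀ j, e j ∈ PH T.W X (a j) := fun j => PH.of (he j)
  have hpar : par (T.W.isInternal X) ∈ (hodgeSys T).Op X X := par_mem
  have hφS : φ ∈ (hodgeSys T).Op X X := hφ.mem
  have hQ : ∀ i j, ((Qm e φ i j : ℚ) : T.W.K) = T.W.tr X (φ (e i) * e j) := fun i j => rt_spec _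
  have hT : ∀ m, (phs e hR hφ).T m = crd e (hodgeSys T) m := T_eq_crd e hR hφ
  let P : PSys (phs e hR hφ).Q :=
    { S := crd e (hodgeSys T)
      one := mem_crd_zero e _
      mul := fun hs ht => crd_mul e hs ht
      perm := fun σ _ ht => crd_perm e ha hpar σ ht
      contr := fun hs ht => crd_contr e ha hpar hφS hQ hs ht
      cas := by rw [← hT]; exact PHS.Om_mem }
  obtain ⟨S, hS⟩ := P.exists_tsys fun m => (hT m).ge
  refine ⟨S, ?_⟩
  rw [hS]
  funext m
  exact (hT m).symm

end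

lemma sh_zero (h : finrank W'.K (W'.H X) = 0) (n : ℕ) :
    TH C G (pw X n) ∧ HT C G (pw X n) ∧ ∀ i, SemisimpleAt G (pw X n) i := by
  have h2 : finrank W'.K (W'.H (pw X n)) = 0 := by
    rw [finrank_pw, h, zero_pow (Nat.succ_ne_zero n)]
  have h3 : Subsingleton (W'.H (pw X n)) := Module.finrank_zero_iff.1 h2
  refine ⟨fun j c _ => ?_, fun j x _ => ?_, (strong_zero h n).1⟩
  · rw [Subsingleton.elim c 0]
    exact Submodule.zero_mem _
  · rw [Subsingleton.elim (C.f (pw X n) x) 0]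
    exact (tatePred G).zero

lemma ss_le {m n : ℕ} (h : m ≤ n) (hn : ∀ j, SemisimpleAt G (pw X n) (2 * j)) (j : ℕ) :
    SemisimpleAt G (pw X m) (2 * j) := by
  obtain ⟨s, p, hsp⟩ := exists_retract (X := X) h
  exact (ssAt_iff G).2 (ss_retract G hsp ((ssAt_iff G).1 (hn j)))

lemma th_le {m n : ℕ} (h : m ≤ n) (hn : TH C G (pw X n)) : TH C G (pw X m) := by
  obtain ⟨s, p, hsp⟩ := exists_retract (X := X) h
  exact th_retract hsp hn

lemma ht_le {m n : ℕ} (h : m ≤ n) (hn : HT C G (pw X n)) : HT C G (pw X m) := by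
  obtain ⟨s, p, hsp⟩ := exists_retract (X := X) h
  exact ht_retract hsp hn

/-- The determinant of the tensor of the polarisation. -/
lemma om_det {ι : Type} [Fintype ι] [DecidableEq ι] (V : PHS ι) (K : Type) [Field K] [CharZero K] :
    (mat2 (bc K (PHS.Om V.Q))).det ≠ 0 := by
  have h1 : mat2 (bc K (PHS.Om V.Q)) = (V.Q⁻¹).map (algebraMap ℚ K) := by
    ext i j
    rw [mat2, Matrix.of_apply]
    rfl
  have h2 : V.Q.det ≠ 0 := by
    intro h
    apply PHS.qc_det (V := V)
    have h3 : (qc V.Q).det = ((V.Q.det : ℚ) : ℂ) := by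
      have h4 := (algebraMap ℚ ℂ).map_det V.Q
      have h5 : algebraMap ℚ ℂ V.Q.det = ((V.Q.det : ℚ) : ℂ) := eq_ratCast _ _
      rw [← h5, h4]
      rfl
    rw [h3, h, Rat.cast_zero]
  have h3 : ((V.Q⁻¹).map (algebraMap ℚ K)).det = algebraMap ℚ K (V.Q⁻¹).det :=
    ((algebraMap ℚ K).map_det _).symm
  rw [h1, h3]
  refine (map_ne_zero _).2 ?_
  rw [Matrix.det_nonsing_inv]
  exact (Ring.inverse_eq_inv' (G₀ := ℚ) ▸ inv_ne_zero h2)

/-- **Effective finite determination for the Mumford-Tate conjecture.** -/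
theorem mt_main [TopologicalSpace Γ] [TopologicalSpace W'.K] (hA : IsArithmetic G X)
    (hR : RealH T X) {φ : Module.End T.W.K (T.W.H X)} (hφ : IsPol T X φ) {N : ℕ}
    (hN : (2 * finrank W'.K (W'.H X)) ^ (2 * finrank W'.K (W'.H X)) ^ 3 ≤ N + 1)
    (hTH : TH C G (pw X N)) (hHT : HT C G (pw X N))
    (hSS : ∀ j, SemisimpleAt G (pw X N) (2 * j)) (n : ℕ) :
    TH C G (pw X n) ∧ HT C G (pw X n) ∧ ∀ i, SemisimpleAt G (pw X n) i := by
  classical
  obtain ⟨e0, a0, he0⟩ := exists_grbasis T.W X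
  obtain ⟨e0', hee0⟩ := exists_eX C T.rat e0
  have hbb : finrank W'.K (W'.H X) = finrank T.W.K (T.W.H X) := by
    rw [Module.finrank_eq_card_basis e0', Fintype.card_fin]
  clear hee0 e0' he0 a0 e0
  by_cases hX : Nontrivial (T.W.H X)
  swap
  · apply sh_zero
    by_contra h2
    rw [hbb] at h2
    exact hX (Module.nontrivial_of_finrank_pos (R := T.W.K) (Nat.pos_of_ne_zero h2))
  rw [hbb] at hN
  obtain ⟨E, hE⟩ := T.dec.polar X
  have hdim := dim_lt hE.1 hE.2.1
  have har := arithT hdim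
  set b := finrank T.W.K (T.W.H X) with hb
  set D₀ := (2 * (2 * ((X.dim + 1) * b.factorial)) + 1) ^ b ^ 2 * (b ^ 2 + 1) ^ (b ^ 2 + 1)
    with hD₀
  have hD1 : 1 ≤ D₀ := Nat.one_le_iff_ne_zero.2 (Nat.mul_ne_zero (pow_ne_zero _ (by omega))
    (pow_ne_zero _ (by omega)))
  obtain ⟨e, a, he⟩ := exists_grbasis T.W X
  obtain ⟨e', hee⟩ := exists_eX C T.rat e
  have he' : ∀ j, e' j ∈ W'.gr X (a j) := he_gr e e' hee he
  set V := phs e hR hφ with hV
  have := hA.topGroup
  have := hA.t2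
  have := hA.topField
  have hcard : Fintype.card (Fin b) = b := Fintype.card_fin _
  have hDD : (2 * V.d + 1) ^ (Fintype.card (Fin b) ^ 2) *
      (Fintype.card (Fin b) ^ 2 + 1) ^ (Fintype.card (Fin b) ^ 2 + 1) ≤ D₀ := by
    rw [hcard, hD₀]
    refine Nat.mul_le_mul_right _ (Nat.pow_le_pow_left ?_ _)
    have h1 : 1 ≤ b.factorial := Nat.factorial_pos b
    have h2 : X.dim + 1 ≤ (X.dim + 1) * b.factorial := Nat.le_mul_of_pos_right _ h1
    have h3 : V.d = X.dim := rfl
    omega
  obtain ⟨S, hS⟩ := exists_tsysH e he hR hφ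
  have hall : ∀ n, ∀ t ∈ V.T n, bc W'.K t ∈ TK (toM G e' he') n := by
    intro n t ht
    refine all_TK (toM G e' he') V hDD (fun m hm s hs => ?_) ht
    cases m with
    | zero =>
      rw [TK_eq]
      exact mem_crdK_zero e' _
    | succ m =>
      exact bc_mem_TK e e' hee hR hφ he' (ht_le (by omega) hHT) hs
  obtain ⟨h1, h2⟩ := mainK (b := b) (dX := X.dim) (toM G e' he') le_rfl
    (fun i j => by
      have := hA.cont_act (e' j) (e'.coord i)
      refine this.congr fun g => ?_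
      exact (Am_apply G e' g i j).symm)
    hA.cont_χ
    (hA.dense.mono fun g hg => by
      have h3 := isWeil he' hg
      rw [hbb] at h3
      exact h3)
    (D₀ := D₀) (by rw [hcard])
    (fun m hm w hw => by
      cases m with
      | zero => exact ss_unique _ _
      | succ m =>
        obtain ⟨j, hj⟩ := hw
        obtain rfl : w = 2 * j := by omega
        exact ss_tensor G he' ((ssAt_iff G).1 (ss_le (by omega) hSS j)))
    (exT W'.K S) (Ω := bc W'.K (PHS.Om V.Q))
    (by
      rw [exT_S, hS]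
      exact bc_mem PHS.Om_mem) (om_det V W'.K)
    (fun m => by
      rw [exT_S, hS, bcS, Submodule.span_le]
      rintro _ ⟨t, ht, rfl⟩
      exact hall m t ht)
    (fun m hm => by
      rw [exT_S, hS]
      cases m with
      | zero =>
        intro t _
        have h3 : t = (t default) • bc W'.K (fun _ => (1 : ℚ)) := by
          funext I
          rw [Pi.smul_apply, Subsingleton.elim I default]
          simp [bc]
        rw [h3]
        refine Submodule.smul_mem _ _ (bc_mem ?_)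
        rw [T_eq_crd]
        exact mem_crd_zero e _
      | succ m => exact TK_le e e' hee hR hφ he' (th_le (by omega) hTH))
  refine ⟨th_of_TK e e' hee hR hφ he' ?_, ht_of_TK e e' hee hR hφ he' (fun t ht => hall _ t ht),
    fun i => (ssAt_iff G).2 (ss_coh G he' (h2 (n + 1) i))⟩
  have h3 := h1 (n + 1)
  rw [exT_S, hS] at h3
  exact h3

/-- **Effective finite determination for Hodge classes which are Tate classes.** -/
theorem ht_main (hR : RealH T X) {φ : Module.End T.W.K (T.W.H X)} (hφ : IsPol T X φ) {N : ℕ}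
    (hN : (2 * finrank W'.K (W'.H X)) ^ (3 * finrank W'.K (W'.H X) ^ 2) ≤ N + 1)
    (h : HT C G (pw X N)) (n : ℕ) : HT C G (pw X n) := by
  classical
  obtain ⟨e0, a0, he0⟩ := exists_grbasis T.W X
  obtain ⟨e0', hee0⟩ := exists_eX C T.rat e0
  have hbb : finrank W'.K (W'.H X) = finrank T.W.K (T.W.H X) := by
    rw [Module.finrank_eq_card_basis e0', Fintype.card_fin]
  clear hee0 e0' he0 a0 e0
  by_cases hX : Nontrivial (T.W.H X)
  swap
  · apply (sh_zero _ n).2.1
    by_contra h2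
    rw [hbb] at h2
    exact hX (Module.nontrivial_of_finrank_pos (R := T.W.K) (Nat.pos_of_ne_zero h2))
  rw [hbb] at hN
  obtain ⟨E, hE⟩ := T.dec.polar X
  have hdim := dim_lt hE.1 hE.2.1
  have har := Pool.Agent.Q60.HD.arith hdim
  set b := finrank T.W.K (T.W.H X) with hb
  set D₀ := (2 * X.dim + 1) ^ b ^ 2 * (b ^ 2 + 1) ^ (b ^ 2 + 1) with hD₀
  have hD1 : 1 ≤ D₀ := Nat.one_le_iff_ne_zero.2 (Nat.mul_ne_zero (pow_ne_zero _ (by omega))
    (pow_ne_zero _ (by omega)))
  obtain ⟨e, a, he⟩ := exists_grbasis T.W X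
  obtain ⟨e', hee⟩ := exists_eX C T.rat e
  have he' : ∀ j, e' j ∈ W'.gr X (a j) := he_gr e e' hee he
  refine ht_of_TK e e' hee hR hφ he' fun t ht => ?_
  refine all_TK (toM G e' he') (phs e hR hφ) (D := D₀) ?_ (fun m hm s hs => ?_) ht
  · rw [Fintype.card_fin]
    exact le_rfl
  · cases m with
    | zero =>
      rw [TK_eq]
      exact mem_crdK_zero e' _
    | succ m => exact bc_mem_TK e e' hee hR hφ he' (ht_le (by omega) h) hs

end Pool.Agent.Q60.MT
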