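import Mathlib.RingTheory.Jacobson.Ring
import Mathlib.FieldTheory.IsAlgClosed.Basic
import Mathlib.Analysis.Complex.Polynomial.Basic

/-!
# Implications between polynomial equations over different fields of characteristic zero
-/

namespace Pool.Agent.Q60.MT

open MvPolynomial

/-- An algebra of finite type over a field has a point over every algebraically closed extension
of the field. -/
lemma exists_point {F A Ω : Type} [Field F] [CommRing A] [Nontrivial A] [Algebra F A]
    [Algebra.FiniteType F A] [Field Ω] [IsAlgClosed Ω] [Algebra F Ω] : Nonempty (A →ₐ[F] Ω) := by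
  obtain ⟨M, hM⟩ := Ideal.exists_maximal A
  let _ : Field (A ⧸ M) := Ideal.Quotient.field M
  have h1 : Algebra.FiniteType F (A ⧸ M) := Algebra.FiniteType.of_surjective
    (Ideal.Quotient.mkₐ F M) (Ideal.Quotient.mkₐ_surjective F M)
  have h2 : Module.Finite F (A ⧸ M) := finite_of_finite_type_of_isJacobsonRing F (A ⧸ M)
  have h3 : Algebra.IsAlgebraic F (A ⧸ M) := Algebra.IsAlgebraic.of_finite F (A ⧸ M)
  let θ : (A ⧸ M) →ₐ[F] Ω := IsAlgClosed.lift
  exact ⟨θ.comp (Ideal.Quotient.mkₐ F M)⟩

/-- An implication between polynomial equations with coefficients in a field which holds over one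
algebraically closed extension holds over all extensions. -/
theorem transfer {σ F Ω : Type} [Finite σ] [Field F] [Field Ω] [IsAlgClosed Ω] [Algebra F Ω]
    (P : Set (MvPolynomial σ F)) (q : MvPolynomial σ F)
    (h : ∀ x : σ → Ω, (∀ p ∈ P, aeval x p = 0) → aeval x q = 0) {L : Type} [Field L]
    [Algebra F L] (x : σ → L) (hx : ∀ p ∈ P, aeval x p = 0) : aeval x q = 0 := by
  by_contra hc
  set c := aeval x q with hcdef
  let A : Subalgebra F L := Algebra.adjoin F (Set.range x ∪ {c⁻¹})
  have hfin : (Set.range x ∪ {c⁻¹}).Finite := (Set.finite_range x).union (Set.finite_singleton _)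
  have hA : Algebra.FiniteType F A :=
    (Subalgebra.fg_iff_finiteType A).1 (Subalgebra.fg_def.2 ⟨_, hfin, rfl⟩)
  obtain ⟨ψ⟩ := exists_point (F := F) (A := A) (Ω := Ω)
  let x' : σ → A := fun i => ⟨x i, Algebra.subset_adjoin (Or.inl ⟨i, rfl⟩)⟩
  have hval : ∀ p : MvPolynomial σ F, ((aeval x' p : A) : L) = aeval x p := by
    intro p
    have h5 : A.val (aeval x' p) = aeval (fun i => A.val (x' i)) p := by
      rw [← MvPolynomial.comp_aeval_apply]
    exact h5
  have hψ : ∀ p : MvPolynomial σ F, aeval (fun i => ψ (x' i)) p = ψ (aeval x' p) := by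
    intro p
    rw [← MvPolynomial.comp_aeval_apply]
  have h6 : aeval (fun i => ψ (x' i)) q = 0 := by
    apply h
    intro p hp
    rw [hψ]
    have h7 : aeval x' p = 0 := by
      apply Subtype.ext
      rw [hval, hx p hp]
      rfl
    rw [h7, map_zero]
  rw [hψ] at h6
  have h8 : (aeval x' q : A) * ⟨c⁻¹, Algebra.subset_adjoin (Or.inr rfl)⟩ = 1 := by
    apply Subtype.ext
    change ((aeval x' q : A) : L) * c⁻¹ = 1
    rw [hval]
    exact mul_inv_cancel₀ hc
  have h9 := congrArg ψ h8
  rw [map_mul, h6, zero_mul, map_one] at h9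
  exact zero_ne_one h9

end Pool.Agent.Q60.MT
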